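import Pool.Agent.GEN.StmtsR

/-!
# Squad GEN, row GLB: local functional equations are global
-/

set_option autoImplicit false

namespace Pool.Agent.GEN.H32

open MvPolynomial Pool.Agent.Helper6_Mono

theorem glb : GlbStmt := by
  intro σ _ f b hb
  let R : MvPolynomial σ ℂ → List (Polynomial (MvPolynomial σ ℂ) × List σ) → Prop :=
    fun h P => ∀ n : ℕ, C (b.eval (n : ℂ)) * h * f ^ n =
      (P.map fun aw => aw.1.eval (n : MvPolynomial σ ℂ) * dWord aw.2 (f ^ (n + 1))).sum
  let J : Ideal (MvPolynomial σ ℂ) :=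
    { carrier := {h | ∃ P, R h P}
      zero_mem' := ⟨[], fun n => by simp⟩
      add_mem' := by
        rintro u v ⟨P, hP⟩ ⟨Q, hQ⟩
        refine ⟨P ++ Q, fun n => ?_⟩
        rw [List.map_append, List.sum_append, ← hP n, ← hQ n]
        ring
      smul_mem' := by
        rintro u v ⟨P, hP⟩
        refine ⟨P.map fun aw => (Polynomial.C u * aw.1, aw.2), fun n => ?_⟩
        rw [List.map_map, smul_eq_mul]
        have h1 : (P.map ((fun aw : Polynomial (MvPolynomial σ ℂ) × List σ =>
            aw.1.eval (n : MvPolynomial σ ℂ) * dWord aw.2 (f ^ (n + 1))) ∘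
            fun aw => (Polynomial.C u * aw.1, aw.2))).sum =
            u * (P.map fun aw => aw.1.eval (n : MvPolynomial σ ℂ) *
              dWord aw.2 (f ^ (n + 1))).sum := by
          rw [← List.sum_map_mul_left]
          congr 1
          refine List.map_congr_left fun aw _ => ?_
          simp only [Function.comp_apply, Polynomial.eval_mul, Polynomial.eval_C]
          ring
        rw [h1, ← hP n]
        ring }
  have hJ : J = ⊤ := by
    by_contra hJ
    obtain ⟨m, hm, hJm⟩ := Ideal.exists_le_maximal J hJ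
    obtain ⟨q, hq⟩ := isMaximal_iff_eq_vanishingIdeal_singleton.1 hm
    obtain ⟨h, hne, P, hP⟩ := hb q
    have h1 : h ∈ J := ⟨P, hP⟩
    have h2 := hJm h1
    rw [hq, mem_vanishingIdeal_singleton_iff] at h2
    rw [aeval_eq_eval] at h2
    exact hne h2
  have h1 : (1 : MvPolynomial σ ℂ) ∈ J := by rw [hJ]; trivial
  obtain ⟨P, hP⟩ := h1
  refine ⟨P, fun n => ?_⟩
  rw [← hP n, mul_one]

end Pool.Agent.GEN.H32
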